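import Pool.Agent.H84.KBOX.Stmts
import Pool.Agent.H84.KEND.Node
import Pool.Agent.H70.K2.Dom
import Pool.Agent.H20.KAL.TAY
import Pool.Agent.H82.KAL.BXI

/-!
# Row LDA: line data
-/

set_option autoImplicit false

namespace Pool.KBX

open Finset Real MeasureTheory
open Pool.Agent.H49.Ent Pool.Agent.H32.Dense Pool.STK Pool.KAF Pool.KAL Pool.KS3

namespace LDA

/-! ### Copies given the line -/

section Copies

variable {W Λ S U : Type} [Fintype W] {q : W → ℝ} (hq : IsLaw q) (ℓ : W → Λ) (τ : W → ℕ)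
  (L N : ℕ)

/-- A sample and `N` copies, conditionally independent given the line. -/
noncomputable def cp (q : W → ℝ) (ℓ : W → Λ) (N : ℕ) : W × (Fin N → W) → ℝ :=
  multi q (fun _ : Fin N => ℓ)

include hq in
theorem cp_law : IsLaw (cp q ℓ N) := (mul_thm W _ N q (fun _ => ℓ) hq).1

include hq in
theorem cp_fst : Marg (cp q ℓ N) q (fun w => w.1) := (mul_thm W _ N q (fun _ => ℓ) hq).2.1

include hq in
theorem cp_snd (r : Fin N) : Marg (cp q ℓ N) q (fun w => w.2 r) :=
  ((mul_thm W _ N q (fun _ => ℓ) hq).2.2 r).comp (dbl_snd hq.nonneg)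

include hq in
theorem cp_eq {w : W × (Fin N → W)} (hw : 0 < cp q ℓ N w) (r : Fin N) :
    ℓ (w.2 r) = ℓ w.1 ∧ 0 < q (w.2 r) := by
  have h := (MUI.multi_pos hq.nonneg hw).2 r
  have h2 := (cond_pos_iff hq.nonneg ℓ (ℓ w.1) (w.2 r)).mp h
  exact ⟨h2.2, h2.1⟩

/-- The times of the copies. -/
def ta (w : W × (Fin N → W)) (r : Fin N) : ℕ := τ (w.2 r)

include hq in
theorem ta_entropy : N * CH q τ ℓ ≤ CH (cp q ℓ N) (ta τ N) (fun w => w.1) := by
  have h := mui_thm mul_thm W _ ℕ N q (fun _ => ℓ) hq (fun _ w => τ w.2)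
  have h1 : ∀ _ : Fin N, CH (dbl q ℓ) (fun w => τ w.2) (fun w => w.1) = CH q τ ℓ := by
    intro _
    rw [← CH_dbl_2 hq.nonneg τ (fun ω : W => ω)]
    refine CH_congr (dbl_nonneg hq.nonneg) ?_ ?_ ?_ ?_
    · intro w w' _ _ hh
      simp only [Prod.mk.injEq] at hh
      exact hh.1
    · intro w w' _ _ hh
      simp only [Prod.mk.injEq] at hh
      exact hh.1
    · intro w w' a b hh
      simp only at hh
      have e1 := dbl_eq hq.nonneg a
      have e2 := dbl_eq hq.nonneg b
      simp only [Prod.mk.injEq]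
      exact ⟨by rw [← e1, ← e2, hh], hh⟩
    · intro w w' _ _ hh
      simp only [Prod.mk.injEq] at hh
      exact hh.2
  rw [Finset.sum_congr rfl fun r _ => h1 r] at h
  simp only [Finset.sum_const, Finset.card_univ, Fintype.card_fin, nsmul_eq_mul] at h
  exact h

include hq in
/-- The times of the copies give little information. -/
theorem add_times {e : ℝ} (hτ : ∀ w, τ w < 2 ^ L) (he : L * Real.log 2 - e ≤ CH q τ ℓ)
    (R : W → S) (G : W → U) :
    CH q R G ≤ CH (cp q ℓ N) (fun w => R w.1) (fun w => (ta τ N w, G w.1)) + N * e := by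
  have h0 := (cp_law hq ℓ N).nonneg
  have h1 := (cp_fst hq ℓ N).CH R G
  have h2 := Pool.KEND.info_symm h0 (fun w => R w.1) (ta τ N) (fun w => G w.1)
  have h3 : CH (cp q ℓ N) (ta τ N) (fun w => G w.1) ≤ N * (L * Real.log 2) := by
    have h := CH_le_card h0 (cp_law hq ℓ N).sum_one (ta τ N) (fun w => G w.1)
      (fun _ => Fintype.piFinset fun _ : Fin N => Finset.range (2 ^ L))
      (fun w _ => by
        rw [Fintype.mem_piFinset]
        intro r
        rw [Finset.mem_range]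
        exact hτ _)
    refine h.trans (le_of_eq ?_)
    simp only [Fintype.card_piFinset, Finset.card_range, Finset.prod_const, Finset.card_univ,
      Fintype.card_fin, Nat.cast_pow, Nat.cast_ofNat, Real.log_pow]
    rw [Ex_const (cp_law hq ℓ N).sum_one]
  have h4 : CH (cp q ℓ N) (ta τ N) (fun w => w.1) ≤ CH (cp q ℓ N) (ta τ N)
      (fun w => (R w.1, G w.1)) := by
    refine CH_mono_cond h0 ?_
    intro w w' _ _ hh
    simp only at hh ⊢
    rw [hh]
  have h5 := ta_entropy hq ℓ τ N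
  have h6 : (N : ℝ) * (L * Real.log 2 - e) ≤ N * CH q τ ℓ :=
    mul_le_mul_of_nonneg_left he (Nat.cast_nonneg N)
  rw [← h1]
  nlinarith only [h2, h3, h4, h5, h6]

include hq in
/-- The energy of two copies. -/
theorem pair_energy {e : ℝ} (hτ : ∀ w, τ w < 2 ^ L) (he : L * Real.log 2 - e ≤ CH q τ ℓ)
    {i k : Fin N} (hik : i ≠ k) :
    Ex (cp q ℓ N) (fun w => Real.log (((2 : ℝ) ^ L) /
      (Pool.KEND.dd (ta τ N w i) (ta τ N w k) : ℝ))) ≤ 2 * (N * e + Real.log 6) := by
  classical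
  have h0 := (cp_law hq ℓ N).nonneg
  have hsum := (cp_law hq ℓ N).sum_one
  set M : ℕ := 2 ^ L with hM
  have hM0 : 0 < M := by positivity
  have hlogM : Real.log (M : ℝ) = L * Real.log 2 := by
    rw [hM, Nat.cast_pow, Real.log_pow, Nat.cast_ofNat]
  set ρ : W × (Fin N → W) → {r : Fin N // r ≠ k} → ℕ := fun w r => ta τ N w r.1 with hρ
  have h2 := CH_le_add h0 (ta τ N) ρ (fun w : W × (Fin N → W) => w.1)
  have h3 : CH (cp q ℓ N) ρ (fun w => w.1) ≤ ((N : ℝ) - 1) * Real.log M := by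
    have h4 := CH_le_card h0 hsum ρ (fun w : W × (Fin N → W) => w.1)
      (fun _ => Fintype.piFinset fun _ : {r : Fin N // r ≠ k} => Finset.range M)
      (fun w _ => by
        rw [Fintype.mem_piFinset]
        intro r
        rw [Finset.mem_range]
        exact hτ _)
    refine h4.trans (le_of_eq ?_)
    have hcard : Fintype.card {r : Fin N // r ≠ k} = N - 1 := by
      rw [Fintype.card_subtype_compl, Fintype.card_fin, Fintype.card_subtype_eq]
    have hN : 1 ≤ N := by have := k.2; omega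
    simp only [Fintype.card_piFinset, Finset.card_range, Finset.prod_const, Finset.card_univ,
      hcard, Nat.cast_pow, Real.log_pow]
    rw [Ex_const hsum, Nat.cast_sub hN, Nat.cast_one]
  have h5 : CH (cp q ℓ N) (ta τ N) (fun w => (ρ w, w.1)) ≤
      CH (cp q ℓ N) (fun w => ta τ N w k) (fun w => (ta τ N w i, w.1)) := by
    refine le_trans ?_ (CH_mono_cond h0 (X := fun w => ta τ N w k) (W' := fun w => (ρ w, w.1)) ?_)
    · refine CH_mono_left h0 ?_
      intro w w' _ _ hh
      simp only [Prod.mk.injEq] at hh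
      funext r
      by_cases hr : r = k
      · rw [hr]; exact hh.1
      · exact congrFun hh.2.1 ⟨r, hr⟩
    · intro w w' _ _ hh
      simp only [Prod.mk.injEq] at hh
      have := congrFun hh.1 ⟨i, hik⟩
      simp only [hρ] at this
      simp only [Prod.mk.injEq]
      exact ⟨this, hh.2⟩
  have h6 := ta_entropy hq ℓ τ N
  have h7 : (N : ℝ) * (L * Real.log 2 - e) ≤ N * CH q τ ℓ :=
    mul_le_mul_of_nonneg_left he (Nat.cast_nonneg N)
  have h8 := Pool.KEND.energy_le (cp_law hq ℓ N) hM0 (fun w => ta τ N w i)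
    (fun w => ta τ N w k) (fun w => hτ _) (fun w => w.1) (e := N * e) (by
      rw [hlogM] at h3 ⊢
      linarith only [h2, h3, h5, h6, h7])
  have e1 : ((2 : ℝ) ^ L) = (M : ℝ) := by
    rw [hM]
    push_cast
    rfl
  rw [e1]
  exact h8

end Copies

/-! ### Dominated laws -/

section Dom

variable {Ω S U : Type} [Fintype Ω]

lemma sum_law_pair {p : Ω → ℝ} (hp : ∀ ω, 0 ≤ p ω) (X : Ω → S) (Y : Ω → U) (y : U)
    (F : Finset S) : ∑ s ∈ F, law p (fun ω => (X ω, Y ω)) (s, y) ≤ law p Y y := by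
  classical
  unfold law
  rw [Finset.sum_comm]
  refine Finset.sum_le_sum fun ω _ => ?_
  dsimp only
  by_cases hy : Y ω = y
  · rw [if_pos hy]
    refine le_trans (b := ∑ s ∈ F, if s = X ω then p ω else 0)
      (Finset.sum_le_sum fun s _ => ?_) ?_
    · by_cases hs : s = X ω
      · rw [if_pos hs]
        split_ifs
        · exact le_rfl
        · exact hp ω
      · rw [if_neg hs, if_neg]
        intro h
        exact hs (Prod.ext_iff.mp h).1.symm
    · rw [Finset.sum_ite_eq']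
      split_ifs
      · exact le_rfl
      · exact hp ω
  · rw [if_neg hy]
    refine (Finset.sum_eq_zero fun s _ => ?_).le
    rw [if_neg]
    intro h
    exact hy (Prod.ext_iff.mp h).2

/-- Conditional entropy under a law which is at most `2 p`. -/
lemma CH_dom {p p' : Ω → ℝ} (hp : IsLaw p) (hp' : IsLaw p') (h : ∀ ω, p' ω ≤ 2 * p ω)
    (X : Ω → S) (Y : Ω → U) : CH p' X Y ≤ 2 * CH p X Y := by
  classical
  have hpos : ∀ ω, 0 < p' ω → 0 < p ω := fun ω hω => by
    have := h ω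
    linarith only [hω, this]
  have h1 := CH_le_cross hp'.nonneg hp'.sum_one X Y
    (fun y s => law p (fun ω => (X ω, Y ω)) (s, y) / law p Y y)
    (fun ω hω => div_pos (law_pos hp.nonneg (fun ω => (X ω, Y ω)) (hpos ω hω))
      (law_pos hp.nonneg Y (hpos ω hω)))
    (fun y s => div_nonneg (law_nonneg hp.nonneg _ _) (law_nonneg hp.nonneg _ _))
    (fun ω hω F => by
      rw [← Finset.sum_div, div_le_one (law_pos hp.nonneg Y (hpos ω hω))]
      exact sum_law_pair hp.nonneg X Y _ F)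
  refine h1.trans ?_
  rw [CH_eq_neg_sum hp.nonneg]
  unfold Ex
  rw [Finset.mul_sum]
  refine Finset.sum_le_sum fun ω _ => ?_
  rw [← mul_assoc]
  rcases (hp'.nonneg ω).eq_or_lt with h0 | h0
  · rw [← h0, zero_mul]
    rcases (hp.nonneg ω).eq_or_lt with h2 | h2
    · rw [← h2]
      simp
    · refine mul_nonneg (by linarith) ?_
      rw [neg_nonneg]
      have a1 := law_pos hp.nonneg (fun ω => (X ω, Y ω)) h2
      have a2 := law_pos hp.nonneg Y h2
      have a3 : law p (fun ω => (X ω, Y ω)) (X ω, Y ω) ≤ law p Y (Y ω) := by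
        have := sum_law_pair hp.nonneg X Y (Y ω) {X ω}
        rwa [Finset.sum_singleton] at this
      exact Real.log_nonpos (div_nonneg a1.le a2.le) ((div_le_one a2).2 a3)
  · have h2 := hpos ω h0
    refine mul_le_mul_of_nonneg_right (h ω) ?_
    rw [neg_nonneg]
    have a1 := law_pos hp.nonneg (fun ω => (X ω, Y ω)) h2
    have a2 := law_pos hp.nonneg Y h2
    have a3 : law p (fun ω => (X ω, Y ω)) (X ω, Y ω) ≤ law p Y (Y ω) := by
      have := sum_law_pair hp.nonneg X Y (Y ω) {X ω}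
      rwa [Finset.sum_singleton] at this
    exact Real.log_nonpos (div_nonneg a1.le a2.le) ((div_le_one a2).2 a3)

lemma CH_pi {W T E : Type} [Fintype W] {q : W → ℝ} (hq : ∀ w, 0 ≤ q w) (Z : W → T) :
    ∀ (n : ℕ) (F : Fin n → W → E), CH q (fun w i => F i w) Z ≤ ∑ i, CH q (F i) Z := by
  intro n
  induction n with
  | zero =>
    intro F
    have h : CH q (fun w i => F i w) Z = 0 :=
      CH_eq_zero hq (fun _ _ _ _ _ => Subsingleton.elim _ _)
    rw [h]
    simp
  | succ n ih =>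
    intro F
    rw [Fin.sum_univ_succ]
    have h1 : CH q (fun w i => F i w) Z ≤
        CH q (fun w => (F 0 w, fun i : Fin n => F i.succ w)) Z := by
      refine CH_mono_left hq ?_
      intro w w' _ _ h
      simp only [Prod.mk.injEq] at h
      funext i
      refine Fin.cases ?_ (fun j => ?_) i
      · exact h.1.1
      · exact congrFun h.1.2 j
    have h2 := CH_subadd hq (F 0) (fun w => fun i : Fin n => F i.succ w) Z
    have h3 := ih (fun i => F i.succ)
    linarith

end Dom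

/-! ### Interpolation -/

/-- The coefficients are controlled by the values at `d + 1` nodes. -/
lemma coef_nodes (d : ℕ) : ∃ C : ℝ, 1 ≤ C ∧ ∀ (Q : Polynomial ℝ) (v : Fin (d + 1) → ℝ) (D H : ℝ),
    Q.natDegree ≤ d → (∀ i, 0 ≤ v i ∧ v i ≤ 1) → 1 ≤ H → (∀ i k, i ≠ k → 1 / H ≤ |v i - v k|) →
    0 ≤ D → (∀ i, |Q.eval (v i)| ≤ D) → ∀ m, |Q.coeff m| ≤ C * (D * H ^ d) := by
  classical
  obtain ⟨C₁, hC₁, hco⟩ := TAY.coef_bound d
  have hd1 : (0 : ℝ) ≤ (d : ℝ) + 1 := by positivity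
  have hCd := mul_nonneg hC₁ hd1
  refine ⟨C₁ * (d + 1) + 1, by linarith, ?_⟩
  intro Q v D H hQ hv hH hsep hD hev m
  have hH0 : 0 < H := by linarith only [hH]
  have hs : 0 < 1 / H := by positivity
  have hinj : Function.Injective v := by
    intro i k hik
    by_contra hne
    have h1 := hsep i k hne
    rw [hik, sub_self, abs_zero] at h1
    linarith only [hs, h1]
  have hsup : ∀ t : ℝ, 0 ≤ t → t ≤ 1 → |Q.eval t| ≤ (d + 1) * (D * H ^ d) := by
    intro t ht0 ht1
    rw [BXI.interp v hinj Q hQ t]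
    refine (Finset.abs_sum_le_sum_abs _ _).trans ?_
    have h1 : ∀ a ∈ (univ : Finset (Fin (d + 1))), |Q.eval (v a) * BXI.lv v a t| ≤ D * H ^ d := by
      intro a _
      rw [abs_mul]
      have h2 := BXI.lv_bound v (1 / H) 1 t hs hsep (fun b => by
        rw [abs_le]
        have := hv b
        constructor <;> linarith) a
      have h3 : (1 : ℝ) / (1 / H) = H := by field_simp
      rw [h3] at h2
      exact mul_le_mul (hev a) h2 (abs_nonneg _) hD
    refine (Finset.sum_le_sum h1).trans (le_of_eq ?_)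
    rw [Finset.sum_const, Finset.card_univ, Fintype.card_fin, nsmul_eq_mul]
    push_cast
    ring
  have hpos : 0 ≤ D * H ^ d := mul_nonneg hD (by positivity)
  rcases Nat.lt_or_ge d m with hm | hm
  · rw [Polynomial.coeff_eq_zero_of_natDegree_lt (lt_of_le_of_lt hQ hm), abs_zero]
    exact mul_nonneg (by linarith) hpos
  · refine (hco Q _ hQ hsup m hm).trans ?_
    nlinarith only [hpos]

lemma floor_diff (x y : ℝ) : |((⌊x⌋ - ⌊y⌋ : ℤ) : ℝ)| ≤ |x - y| + 1 := by
  have h1 := Int.floor_le x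
  have h2 := Int.lt_floor_add_one x
  have h3 := Int.floor_le y
  have h4 := Int.lt_floor_add_one y
  push_cast
  rw [abs_le]
  constructor
  · have := neg_abs_le (x - y)
    linarith only [h2, h3, this]
  · have := le_abs_self (x - y)
    linarith

/-- The rounded coefficients of two polynomials with almost the same values. -/
lemma rc_diff (d : ℕ) : ∃ C : ℝ, 1 ≤ C ∧ ∀ (L b : ℕ) (Q Q' : Polynomial ℝ) (t : Fin (d + 1) → ℕ)
    (K D H : ℝ), b ≤ L → K ≤ 2 ^ b → (∀ i, t i < 2 ^ L) → 1 ≤ H →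
    (∀ i k, i ≠ k → (2 : ℝ) ^ L / (Pool.KEND.dd (t i) (t k) : ℝ) ≤ H) → 0 ≤ D →
    Q.natDegree ≤ d → Q'.natDegree ≤ d → (∀ i, |Q.coeff i| ≤ K) → (∀ i, |Q'.coeff i| ≤ K) →
    (∀ i, |Q.eval ((t i : ℝ) / 2 ^ L) - Q'.eval ((t i : ℝ) / 2 ^ L)| ≤ D / 2 ^ b) →
    ∀ m : ℕ, |((⌊(2 : ℝ) ^ b * Q.coeff m⌋ - ⌊(2 : ℝ) ^ b * Q'.coeff m⌋ : ℤ) : ℝ)| ≤
      (C * D + 3) * H ^ (d + 2) := by
  obtain ⟨C, hC, hco⟩ := coef_nodes d
  refine ⟨C, hC, ?_⟩
  intro L b Q Q' t K D H hbL hK ht hH hdd hD hQ hQ' hc hc' hev m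
  have h2L : (0 : ℝ) < 2 ^ L := by positivity
  have h2b : (0 : ℝ) < 2 ^ b := by positivity
  have h2b1 : (1 : ℝ) ≤ 2 ^ b := one_le_pow₀ (by norm_num)
  have hbL' : (2 : ℝ) ^ b ≤ 2 ^ L := pow_le_pow_right₀ (by norm_num) hbL
  have hHd : (1 : ℝ) ≤ H ^ (d + 2) := one_le_pow₀ hH
  have hfl := floor_diff ((2 : ℝ) ^ b * Q.coeff m) ((2 : ℝ) ^ b * Q'.coeff m)
  have hmul : |(2 : ℝ) ^ b * Q.coeff m - (2 : ℝ) ^ b * Q'.coeff m| =
      2 ^ b * |Q.coeff m - Q'.coeff m| := by
    rw [← mul_sub, abs_mul, abs_of_pos h2b]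
  rw [hmul] at hfl
  by_cases hinj : ∀ i k, i ≠ k → t i ≠ t k
  · have h1 : ∀ j, |(Q - Q').coeff j| ≤ C * (D / 2 ^ b * H ^ d) := by
      refine hco (Q - Q') (fun i => (t i : ℝ) / 2 ^ L) (D / 2 ^ b) H ?_ ?_ hH ?_
        (by positivity) ?_
      · exact (Polynomial.natDegree_sub_le _ _).trans (max_le hQ hQ')
      · intro i
        have h3 : (t i : ℝ) < 2 ^ L := by exact_mod_cast ht i
        exact ⟨by positivity, (div_le_one h2L).2 h3.le⟩
      · intro i k hik
        have h3 := hdd i k hik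
        have h4 : (Pool.KEND.dd (t i) (t k) : ℝ) = |(t i : ℝ) - t k| := by
          have hne := hinj i k hik
          rcases Nat.lt_or_ge (t i) (t k) with h | h
          · have h5 : Pool.KEND.dd (t i) (t k) = t k - t i := by
              unfold Pool.KEND.dd
              omega
            rw [h5, Nat.cast_sub h.le, abs_of_nonpos, neg_sub]
            have : (t i : ℝ) < t k := by exact_mod_cast h
            linarith only [this]
          · have h5 : Pool.KEND.dd (t i) (t k) = t i - t k := by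
              unfold Pool.KEND.dd
              omega
            rw [h5, Nat.cast_sub h, abs_of_nonneg]
            have : (t k : ℝ) ≤ t i := by exact_mod_cast h
            linarith only [this]
        have h5 : (0 : ℝ) < Pool.KEND.dd (t i) (t k) := by
          have := Pool.KEND.one_le_dd (t i) (t k)
          exact_mod_cast this
        rw [div_le_iff₀ h5, h4] at h3
        rw [← sub_div, abs_div, abs_of_pos h2L, div_le_div_iff₀ (by linarith only [hH]) h2L]
        linarith only [h3]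
      · intro i
        rw [Polynomial.eval_sub]
        exact hev i
    have h2 := h1 m
    rw [Polynomial.coeff_sub] at h2
    have h3 : (2 : ℝ) ^ b * |Q.coeff m - Q'.coeff m| ≤ C * D * H ^ d := by
      refine (mul_le_mul_of_nonneg_left h2 h2b.le).trans (le_of_eq ?_)
      field_simp
    have h4 : H ^ d ≤ H ^ (d + 2) := pow_le_pow_right₀ hH (by omega)
    have h5 : C * D * H ^ d ≤ C * D * H ^ (d + 2) :=
      mul_le_mul_of_nonneg_left h4 (mul_nonneg (by linarith only [hC]) hD)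
    nlinarith only [hHd, hfl, h3, h5]
  · push Not at hinj
    obtain ⟨i, k, hik, htt⟩ := hinj
    have h1 := hdd i k hik
    have h2 : Pool.KEND.dd (t i) (t k) = 1 := by
      unfold Pool.KEND.dd
      omega
    rw [h2, Nat.cast_one, div_one] at h1
    have h3 : |Q.coeff m - Q'.coeff m| ≤ 2 * K := by
      have := abs_sub (Q.coeff m) (Q'.coeff m)
      have e1 := hc m
      have e2 := hc' m
      linarith only [this, e1, e2]
    have h4 : (2 : ℝ) ^ b * |Q.coeff m - Q'.coeff m| ≤ 2 * (H * H) := by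
      have e1 : (2 : ℝ) ^ b ≤ H := hbL'.trans h1
      have e2 : |Q.coeff m - Q'.coeff m| ≤ 2 * H := by linarith only [hK, hbL', h1, h3]
      have := mul_le_mul e1 e2 (abs_nonneg _) (by linarith)
      linarith only [this]
    have h5 : H * H ≤ H ^ (d + 2) := by
      rw [pow_add, ← sq]
      have : (1 : ℝ) ≤ H ^ d := one_le_pow₀ hH
      nlinarith only [this, sq_nonneg H]
    have h6 : 0 ≤ C * D * H ^ (d + 2) := mul_nonneg (mul_nonneg (by linarith only [hC]) hD) (by positivity)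
    nlinarith only [hHd, hfl, h4, h5, h6]

/-- The product of the inverse distances of the nodes. -/
noncomputable def HH {W : Type} (τ : W → ℕ) (L N : ℕ) (w : W × (Fin N → W)) : ℝ :=
  ∏ i : Fin N, ∏ k ∈ univ.erase i, ((2 : ℝ) ^ L / (Pool.KEND.dd (ta τ N w i) (ta τ N w k) : ℝ))

lemma fac_one {L a b : ℕ} (ha : a < 2 ^ L) (hb : b < 2 ^ L) :
    (1 : ℝ) ≤ (2 : ℝ) ^ L / (Pool.KEND.dd a b : ℝ) := by
  have h1 := Pool.KEND.one_le_dd a b
  have h2 : (0 : ℝ) < Pool.KEND.dd a b := by exact_mod_cast h1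
  rw [le_div_iff₀ h2, one_mul]
  have h3 : Pool.KEND.dd a b ≤ 2 ^ L := by
    have := Nat.one_le_two_pow (n := L)
    unfold Pool.KEND.dd
    omega
  exact_mod_cast h3

lemma one_le_prod_fac {ι : Type} (s : Finset ι) (f : ι → ℝ) (h : ∀ i ∈ s, 1 ≤ f i) :
    1 ≤ ∏ i ∈ s, f i := by
  classical
  induction s using Finset.induction_on with
  | empty => simp
  | insert a s ha ih =>
    rw [Finset.prod_insert ha]
    have h1 := h a (Finset.mem_insert_self a s)
    have h2 := ih fun i hi => h i (Finset.mem_insert_of_mem hi)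
    nlinarith only [h1, h2]

lemma le_prod_fac {ι : Type} [DecidableEq ι] (s : Finset ι) (f : ι → ℝ) (h : ∀ i ∈ s, 1 ≤ f i)
    {a : ι} (ha : a ∈ s) : f a ≤ ∏ i ∈ s, f i := by
  rw [← Finset.mul_prod_erase s f ha]
  have h1 := one_le_prod_fac (s.erase a) f fun i hi => h i (Finset.mem_of_mem_erase hi)
  have h2 := h a ha
  nlinarith only [h1, h2]

lemma one_le_HH {W : Type} {τ : W → ℕ} {L N : ℕ} (hτ : ∀ w, τ w < 2 ^ L)
    (w : W × (Fin N → W)) : 1 ≤ HH τ L N w := by
  refine one_le_prod_fac _ _ fun i _ => one_le_prod_fac _ _ fun k _ => ?_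
  exact fac_one (hτ _) (hτ _)

lemma fac_le_HH {W : Type} {τ : W → ℕ} {L N : ℕ} (hτ : ∀ w, τ w < 2 ^ L)
    (w : W × (Fin N → W)) {i k : Fin N} (hik : i ≠ k) :
    (2 : ℝ) ^ L / (Pool.KEND.dd (ta τ N w i) (ta τ N w k) : ℝ) ≤ HH τ L N w := by
  have h1 : (2 : ℝ) ^ L / (Pool.KEND.dd (ta τ N w i) (ta τ N w k) : ℝ) ≤
      ∏ k ∈ univ.erase i, ((2 : ℝ) ^ L / (Pool.KEND.dd (ta τ N w i) (ta τ N w k) : ℝ)) :=
    le_prod_fac (univ.erase i)
      (fun k => (2 : ℝ) ^ L / (Pool.KEND.dd (ta τ N w i) (ta τ N w k) : ℝ))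
      (fun k _ => fac_one (hτ _) (hτ _)) (Finset.mem_erase.2 ⟨hik.symm, Finset.mem_univ k⟩)
  refine h1.trans ?_
  exact le_prod_fac univ
    (fun i => ∏ k ∈ univ.erase i, ((2 : ℝ) ^ L / (Pool.KEND.dd (ta τ N w i) (ta τ N w k) : ℝ)))
    (fun i _ => one_le_prod_fac _ _ fun k _ => fac_one (hτ _) (hτ _)) (Finset.mem_univ i)

lemma log_HH {W : Type} {τ : W → ℕ} {L N : ℕ} (hτ : ∀ w, τ w < 2 ^ L)
    (w : W × (Fin N → W)) : Real.log (HH τ L N w) = ∑ i : Fin N, ∑ k ∈ univ.erase i,
      Real.log ((2 : ℝ) ^ L / (Pool.KEND.dd (ta τ N w i) (ta τ N w k) : ℝ)) := by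
  unfold HH
  rw [Real.log_prod]
  · refine Finset.sum_congr rfl fun i _ => ?_
    rw [Real.log_prod]
    intro k _
    have := fac_one (hτ (w.2 i)) (hτ (w.2 k))
    exact (lt_of_lt_of_le one_pos this).ne'
  · intro i _
    have := one_le_prod_fac (univ.erase i)
      (fun k => (2 : ℝ) ^ L / (Pool.KEND.dd (ta τ N w i) (ta τ N w k) : ℝ))
      (fun k _ => fac_one (hτ _) (hτ _))
    exact (lt_of_lt_of_le one_pos this).ne'

lemma Ex_sum {Ω ι : Type} [Fintype Ω] (p : Ω → ℝ) (s : Finset ι) (f : ι → Ω → ℝ) :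
    Ex p (fun ω => ∑ i ∈ s, f i ω) = ∑ i ∈ s, Ex p (f i) := by
  classical
  unfold Ex
  rw [Finset.sum_comm]
  refine Finset.sum_congr rfl fun ω _ => ?_
  rw [Finset.mul_sum]

/-- The mean of the logarithm of the product. -/
lemma Ex_log_HH {W Λ : Type} [Fintype W] {q : W → ℝ} (hq : IsLaw q) (ℓ : W → Λ) (τ : W → ℕ)
    (L N : ℕ) {e : ℝ} (h0 : 0 ≤ e) (hτ : ∀ w, τ w < 2 ^ L)
    (he : L * Real.log 2 - e ≤ CH q τ ℓ) :
    Ex (cp q ℓ N) (fun w => Real.log (HH τ L N w)) ≤ N * (N * (2 * (N * e + Real.log 6))) := by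
  classical
  have h1 : (fun w : W × (Fin N → W) => Real.log (HH τ L N w)) = fun w =>
      ∑ i : Fin N, ∑ k ∈ univ.erase i,
      Real.log ((2 : ℝ) ^ L / (Pool.KEND.dd (ta τ N w i) (ta τ N w k) : ℝ)) :=
    funext fun w => log_HH hτ w
  rw [h1, Ex_sum]
  have hc : (0 : ℝ) ≤ 2 * (N * e + Real.log 6) := by
    have := Real.log_nonneg (show (1 : ℝ) ≤ 6 by norm_num)
    positivity
  have h2 : ∀ i ∈ (univ : Finset (Fin N)), Ex (cp q ℓ N) (fun w => ∑ k ∈ univ.erase i,
      Real.log ((2 : ℝ) ^ L / (Pool.KEND.dd (ta τ N w i) (ta τ N w k) : ℝ))) ≤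
      N * (2 * (N * e + Real.log 6)) := by
    intro i _
    rw [Ex_sum]
    have h3 : ∀ k ∈ univ.erase i, Ex (cp q ℓ N) (fun w =>
        Real.log ((2 : ℝ) ^ L / (Pool.KEND.dd (ta τ N w i) (ta τ N w k) : ℝ))) ≤
        2 * (N * e + Real.log 6) := fun k hk =>
      pair_energy hq ℓ τ L N hτ he (Finset.ne_of_mem_erase hk).symm
    refine (Finset.sum_le_card_nsmul _ _ _ h3).trans ?_
    rw [nsmul_eq_mul]
    refine mul_le_mul_of_nonneg_right ?_ hc
    have : (univ.erase i).card ≤ N := by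
      refine (Finset.card_erase_le).trans ?_
      rw [Finset.card_univ, Fintype.card_fin]
    exact_mod_cast this
  refine (Finset.sum_le_card_nsmul _ _ _ h2).trans (le_of_eq ?_)
  rw [nsmul_eq_mul, Finset.card_univ, Fintype.card_fin]

end LDA

open LDA in
theorem lda_thm (hCON : CONStmt) : LDAStmt := by
  classical
  intro n d C₀ hC₀
  obtain ⟨Cc, hCc, hcon⟩ := hCON n d C₀ hC₀
  obtain ⟨C₂, hC₂, hrc⟩ := rc_diff d
  set N : ℕ := d + 1 with hN
  set D : ℝ := 2 * C₀ + 1 with hD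
  set C₃ : ℝ := C₂ * D + 3 with hC₃
  have hD0 : 0 ≤ D := by rw [hD]; linarith only [hC₀]
  have hC₃1 : 1 ≤ C₃ := by
    have : 0 ≤ C₂ * D := mul_nonneg (by linarith) hD0
    rw [hC₃]
    linarith
  have hN0 : (0 : ℝ) ≤ N := Nat.cast_nonneg N
  have hlog6 : 0 ≤ Real.log 6 := Real.log_nonneg (by norm_num)
  have hlog2 : 0 ≤ Real.log 2 := Real.log_nonneg (by norm_num)
  have hlog2' : Real.log 2 ≤ 1 := by
    have := Real.log_le_sub_one_of_pos (show (0 : ℝ) < 2 by norm_num)
    linarith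
  have hlogD : 0 ≤ Real.log (2 * C₀ + 1) := Real.log_nonneg (by linarith)
  have hlogC : 0 ≤ Real.log (3 * C₃) := Real.log_nonneg (by linarith)
  set C₄ : ℝ := N * 5 + N * (n * Real.log (2 * C₀ + 1) + 2 * Cc) + 1 +
    N * (Real.log (3 * C₃) + (d + 2) * (N * (N * (2 * (N * 5 + Real.log 6))))) with hC₄
  have hC₄0 : 1 ≤ C₄ := by
    have h1 : 0 ≤ (N : ℝ) * 5 := by positivity
    have h2 : 0 ≤ (N : ℝ) * (n * Real.log (2 * C₀ + 1) + 2 * Cc) := by positivity
    have h3 : 0 ≤ (N : ℝ) * (Real.log (3 * C₃) +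
      (d + 2) * (N * (N * (2 * (N * 5 + Real.log 6))))) := by positivity
    rw [hC₄]
    linarith only [h2, h3]
  refine ⟨C₄, hC₄0, ?_⟩
  intro Ω Λ Ξ W S _ _ p lam x T pos A B L κ γ b δ ε e₁ e₃ K ψ P q o G hLF hbL hb1 hPL hq hqo hK1
    hK2 hG
  have hp := hLF.leaf.isLaw
  have hW0 : 1 ≤ W0 L κ γ ε := by
    unfold W0
    have h1 : (0 : ℝ) ≤ (L : ℝ) / κ := by positivity
    have h2 : (0 : ℝ) ≤ γ := Nat.cast_nonneg γ
    have h3 : (0 : ℝ) ≤ κ := Nat.cast_nonneg κ
    have h4 : 0 ≤ ε * L := mul_nonneg hLF.ε_nonneg (Nat.cast_nonneg L)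
    linarith only [h1, h4]
  have he₁ := hLF.e₁_nonneg
  have he₃ := hLF.e₃_nonneg
  set Q : ℝ := e₁ + e₃ + W0 L κ γ ε with hQ
  have hQ1 : 1 ≤ Q := by rw [hQ]; linarith only [hW0, he₁, he₃]
  -- the law of the incidence `o`
  set p' : Ω → ℝ := fun ω => law q o ω with hp'
  have hM : Marg q p' o := fun ω => rfl
  have hp'l : IsLaw p' := ⟨fun ω => law_nonneg hq.nonneg o ω, by rw [← hM.sum]; exact hq.sum_one⟩
  set ℓ : W → Λ := fun w => lam (o w) with hℓ
  set τ : W → ℕ := fun w => T (x (o w)) with hτd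
  have hτ : ∀ w, τ w < 2 ^ L := fun w => hLF.leaf.T_lt (o w)
  -- the deficit of the time
  set e' : ℝ := 2 * (e₁ + 1) + Real.log 2 with he'
  have he'0 : 0 ≤ e' := by rw [he']; linarith only [hlog2, he₁]
  have he'5 : e' ≤ 5 * Q := by rw [he']; linarith only [hlog2', hW0, he₁, he₃]
  have hdef : L * Real.log 2 - e' ≤ CH q τ ℓ := by
    have h1 := Pool.KX.dom1_thm Ω ℕ Λ p p' (fun ω => T (x ω)) lam (Finset.range (2 ^ L)) 2 hp hp'l
      hqo (fun ω _ => Finset.mem_range.2 (hLF.leaf.T_lt ω))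
    have h2 : CH q τ ℓ = CH p' (fun ω => T (x ω)) lam := hM.CH (fun ω => T (x ω)) lam
    have h3 := hLF.time
    rw [Finset.card_range, Nat.cast_pow, Real.log_pow, Nat.cast_ofNat] at h1
    rw [h2, he']
    linarith only [h1, h3]
  set R : W → Fin (d + 1) → ℤ := fun w => rc d b K (P (lam (o w))) with hR
  have hr := cp_law hq ℓ N
  have h0 := hr.nonneg
  -- first step: the times
  have s1 := add_times hq ℓ τ L N hτ hdef R G
  -- second step: the values
  set vv : W × (Fin N → W) → Fin N → ℤ := fun w i => dg b ψ (x (o (w.2 i))) with hvv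
  set Z₀ : W × (Fin N → W) → (Fin N → ℕ) × S := fun w => (ta τ N w, G w.1) with hZ₀
  have s2 := CH_le_add h0 (fun w : W × (Fin N → W) => R w.1) vv Z₀
  have s3 : CH (cp q ℓ N) vv Z₀ ≤ N * (n * Real.log (2 * C₀ + 1) + 2 * (Cc * Q)) := by
    have t1 := CH_pi h0 Z₀ N (fun i w => vv w i)
    have t2 : ∀ i ∈ (univ : Finset (Fin N)), CH (cp q ℓ N) (fun w => vv w i) Z₀ ≤
        n * Real.log (2 * C₀ + 1) + 2 * (Cc * Q) := by
      intro i _
      set bz : W × (Fin N → W) → Fin n → ℤ := fun w k => (bc L b pos (x (o (w.2 i))) k : ℤ) with hbz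
      have u1 := CH_le_add h0 (fun w => vv w i) bz Z₀
      have u2 : CH (cp q ℓ N) bz Z₀ ≤ n * Real.log (2 * C₀ + 1) := by
        have h := CH_le_vec h0 hr.sum_one bz Z₀ (fun _ => C₀) ?_
        · rw [Ex_const hr.sum_one] at h
          exact h
        · intro w w' hw hw' hh k
          have e1 := Prod.ext_iff.mp hh
          have e2 : ta τ N w i = ta τ N w' i := congrFun e1.1 i
          have e3 : G w.1 = G w'.1 := e1.2
          have a1 := (cp_fst hq ℓ N).pos h0 hw
          have a2 := (cp_fst hq ℓ N).pos h0 hw'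
          obtain ⟨c1, c2⟩ := cp_eq hq ℓ N hw i
          obtain ⟨d1, d2⟩ := cp_eq hq ℓ N hw' i
          have pos1 : ∀ v : W, 0 < q v → 0 < p (o v) := by
            intro v hv
            have f1 : 0 < law q o (o v) := law_pos hq.nonneg o hv
            have f2 := hqo (o v)
            linarith only [f1, f2]
          have h5 := hG w.1 w'.1 a1 a2 e3 (o (w.2 i)) (o (w'.2 i)) (pos1 _ c2) (pos1 _ d2) c1 d1
            (by
              have e4 : T (x (o (w.2 i))) = T (x (o (w'.2 i))) := e2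
              rw [e4]) k
          have e6 : ((bz w k - bz w' k : ℤ) : ℝ) = (bc L b pos (x (o (w.2 i))) k : ℝ) -
              (bc L b pos (x (o (w'.2 i))) k : ℝ) := by
            simp only [hbz]
            push_cast
            ring
          rw [e6]
          exact h5
      have u3 : CH (cp q ℓ N) (fun w => vv w i) (fun w => (bz w, Z₀ w)) ≤ 2 * (Cc * Q) := by
        have v1 : CH (cp q ℓ N) (fun w => vv w i) (fun w => (bz w, Z₀ w)) ≤
            CH (cp q ℓ N) (fun w => vv w i) (fun w => bc L b pos (x (o (w.2 i)))) := by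
          refine CH_mono_cond h0 ?_
          intro w w' _ _ hh
          have e1 := (Prod.ext_iff.mp hh).1
          funext k
          have e2 := congrFun e1 k
          simp only [hbz] at e2
          exact_mod_cast e2
        have v2 : CH (cp q ℓ N) (fun w => vv w i) (fun w => bc L b pos (x (o (w.2 i)))) =
            CH q (fun w => dg b ψ (x (o w))) (fun w => bc L b pos (x (o w))) :=
          (cp_snd hq ℓ N i).CH (fun w => dg b ψ (x (o w))) (fun w => bc L b pos (x (o w)))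
        have v3 : CH q (fun w => dg b ψ (x (o w))) (fun w => bc L b pos (x (o w))) =
            CH p' (fun ω => dg b ψ (x ω)) (fun ω => bc L b pos (x ω)) :=
          hM.CH (fun ω => dg b ψ (x ω)) (fun ω => bc L b pos (x ω))
        have v4 := CH_dom hp hp'l hqo (fun ω => dg b ψ (x ω)) (fun ω => bc L b pos (x ω))
        have v5 := (hcon Ω Λ Ξ p lam x T pos A B L κ γ b δ ε e₁ e₃ ψ P hLF hbL hPL).1
        linarith only [v1, v2, v3, v4, v5]
      linarith only [u1, u2, u3]
    have t3 := Finset.sum_le_card_nsmul _ _ _ t2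
    rw [nsmul_eq_mul, Finset.card_univ, Fintype.card_fin] at t3
    exact t1.trans t3
  -- third step: the branch
  set Jv : W × (Fin N → W) → Bool :=
    fun w => decide (∀ i, |(P (lam (o w.1))).coeff i| ≤ K) with hJv
  set Z₁ : W × (Fin N → W) → (Fin N → ℤ) × ((Fin N → ℕ) × S) := fun w => (vv w, Z₀ w) with hZ₁
  have s4 := CH_le_add h0 (fun w : W × (Fin N → W) => R w.1) Jv Z₁
  have s5 : CH (cp q ℓ N) Jv Z₁ ≤ Real.log 2 := by
    have h := CH_le_card h0 hr.sum_one Jv Z₁ (fun _ => (univ : Finset Bool))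
      (fun _ _ => Finset.mem_univ _)
    rw [Ex_const hr.sum_one] at h
    simpa using h
  -- fourth step: interpolation
  set Lf : W × (Fin N → W) → ℝ := fun w => C₃ * HH τ L N w ^ (d + 2) with hLf
  have s6 : CH (cp q ℓ N) (fun w : W × (Fin N → W) => R w.1) (fun w => (Jv w, Z₁ w)) ≤
      ((d + 1 : ℕ) : ℝ) * Ex (cp q ℓ N) (fun w => Real.log (2 * Lf w + 1)) := by
    refine CH_le_vec h0 hr.sum_one (fun w : W × (Fin N → W) => R w.1) (fun w => (Jv w, Z₁ w)) Lf ?_
    intro w w' hw hw' hh m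
    have e1 := Prod.ext_iff.mp hh
    have e2 : Jv w = Jv w' := e1.1
    have e3 := Prod.ext_iff.mp e1.2
    have e4 : vv w = vv w' := e3.1
    have e5 := Prod.ext_iff.mp e3.2
    have e6 : ta τ N w = ta τ N w' := e5.1
    have hH1 := one_le_HH hτ w
    have hLf0 : 0 ≤ Lf w := by
      simp only [hLf]
      positivity
    by_cases hJ : ∀ i, |(P (lam (o w.1))).coeff i| ≤ K
    · have hJ' : ∀ i, |(P (lam (o w'.1))).coeff i| ≤ K := by
        simp only [hJv] at e2
        rw [decide_eq_decide] at e2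
        exact e2.1 hJ
      have r1 : R w.1 m = ⌊(2 : ℝ) ^ b * (P (lam (o w.1))).coeff m⌋ := by
        simp only [hR]
        unfold rc
        rw [if_pos hJ]
      have r2 : R w'.1 m = ⌊(2 : ℝ) ^ b * (P (lam (o w'.1))).coeff m⌋ := by
        simp only [hR]
        unfold rc
        rw [if_pos hJ']
      rw [r1, r2]
      refine hrc L b (P (lam (o w.1))) (P (lam (o w'.1))) (ta τ N w) K D (HH τ L N w) hbL hK2
        (fun i => hτ _) hH1 (fun i k hik => fac_le_HH hτ w hik) hD0 (hPL.deg _) (hPL.deg _) hJ hJ'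
        ?_ m
      intro i
      obtain ⟨c1, c2⟩ := cp_eq hq ℓ N hw i
      obtain ⟨d1, d2⟩ := cp_eq hq ℓ N hw' i
      have pos1 : ∀ v : W, 0 < q v → 0 < p (o v) := by
        intro v hv
        have f1 : 0 < law q o (o v) := law_pos hq.nonneg o hv
        have f2 := hqo (o v)
        linarith only [f1, f2]
      have g1 := hPL.line (o (w.2 i)) (pos1 _ c2)
      have g2 := hPL.line (o (w'.2 i)) (pos1 _ d2)
      have c1' : lam (o (w.2 i)) = lam (o w.1) := c1
      have d1' : lam (o (w'.2 i)) = lam (o w'.1) := d1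
      have e7 : T (x (o (w.2 i))) = ta τ N w i := rfl
      have e8 : T (x (o (w'.2 i))) = ta τ N w i := by
        have : T (x (o (w'.2 i))) = ta τ N w' i := rfl
        rw [this, e6]
      rw [c1', e7] at g1
      rw [d1', e8] at g2
      have e9 : dg b ψ (x (o (w.2 i))) = dg b ψ (x (o (w'.2 i))) := congrFun e4 i
      unfold dg at e9
      have h2b : (0 : ℝ) < 2 ^ b := by positivity
      have g3 : |ψ (x (o (w.2 i))) - ψ (x (o (w'.2 i)))| ≤ 1 / 2 ^ b := by
        have := Int.abs_sub_lt_one_of_floor_eq_floor e9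
        rw [← mul_sub, abs_mul, abs_of_pos h2b] at this
        rw [le_div_iff₀ h2b, mul_comm]
        exact this.le
      have g4 : D / 2 ^ b = C₀ / 2 ^ b + C₀ / 2 ^ b + 1 / 2 ^ b := by
        rw [hD]
        ring
      rw [g4]
      rw [abs_le] at g1 g2 g3 ⊢
      constructor <;> linarith only [g1, g2, g3]
    · have hJ' : ¬ ∀ i, |(P (lam (o w'.1))).coeff i| ≤ K := by
        simp only [hJv] at e2
        rw [decide_eq_decide] at e2
        exact fun h => hJ (e2.2 h)
      have r1 : R w.1 m = 0 := by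
        simp only [hR]
        unfold rc
        rw [if_neg hJ]
        rfl
      have r2 : R w'.1 m = 0 := by
        simp only [hR]
        unfold rc
        rw [if_neg hJ']
        rfl
      rw [r1, r2]
      simpa using hLf0
  have s7 : Ex (cp q ℓ N) (fun w => Real.log (2 * Lf w + 1)) ≤
      Real.log (3 * C₃) + (d + 2) * (N * (N * (2 * (N * e' + Real.log 6)))) := by
    have t1 : Ex (cp q ℓ N) (fun w => Real.log (2 * Lf w + 1)) ≤
        Ex (cp q ℓ N) (fun w => Real.log (3 * C₃) + (d + 2) * Real.log (HH τ L N w)) := by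
      refine Ex_mono h0 fun w _ => ?_
      have hH1 := one_le_HH hτ w
      have hHp : (1 : ℝ) ≤ HH τ L N w ^ (d + 2) := one_le_pow₀ hH1
      have t2 : 2 * Lf w + 1 ≤ 3 * C₃ * HH τ L N w ^ (d + 2) := by
        simp only [hLf]
        nlinarith only [hC₀, hC₂, hHp, hC₃1]
      have t3 : 0 < 2 * Lf w + 1 := by
        simp only [hLf]
        positivity
      have t4 := Real.log_le_log t3 t2
      rw [Real.log_mul (by positivity) (by positivity), Real.log_pow] at t4
      push_cast at t4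
      exact t4
    rw [Ex_add, Ex_const hr.sum_one, Ex_smul] at t1
    have t5 := Ex_log_HH hq ℓ τ L N he'0 hτ hdef
    have t6 : ((d : ℝ) + 2) * Ex (cp q ℓ N) (fun w => Real.log (HH τ L N w)) ≤
        (d + 2) * (N * (N * (2 * (N * e' + Real.log 6)))) :=
      mul_le_mul_of_nonneg_left t5 (by positivity)
    linarith only [t1, t6]
  -- conclusion
  have s8 : ((d + 1 : ℕ) : ℝ) * Ex (cp q ℓ N) (fun w => Real.log (2 * Lf w + 1)) ≤
      N * (Real.log (3 * C₃) + (d + 2) * (N * (N * (2 * (N * e' + Real.log 6))))) :=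
    mul_le_mul_of_nonneg_left s7 hN0
  have s9 : (N : ℝ) * (Real.log (3 * C₃) + (d + 2) * (N * (N * (2 * (N * e' + Real.log 6))))) ≤
      N * (Real.log (3 * C₃) + (d + 2) * (N * (N * (2 * (N * 5 + Real.log 6))))) * Q := by
    rw [mul_assoc (N : ℝ)]
    refine mul_le_mul_of_nonneg_left ?_ hN0
    have a1 : Real.log (3 * C₃) ≤ Real.log (3 * C₃) * Q := le_mul_of_one_le_right hlogC hQ1
    have a2 : (N : ℝ) * e' + Real.log 6 ≤ (N * 5 + Real.log 6) * Q := by
      have b1 : (N : ℝ) * e' ≤ N * (5 * Q) := mul_le_mul_of_nonneg_left he'5 hN0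
      have b2 : Real.log 6 ≤ Real.log 6 * Q := le_mul_of_one_le_right hlog6 hQ1
      linarith only [b1, b2]
    have a3 : ((d : ℝ) + 2) * (N * (N * (2 * (N * e' + Real.log 6)))) ≤
        (d + 2) * (N * (N * (2 * (N * 5 + Real.log 6)))) * Q := by
      have b1 : ((d : ℝ) + 2) * (N * (N * (2 * (N * e' + Real.log 6)))) =
          (d + 2) * (N * (N * 2)) * (N * e' + Real.log 6) := by ring
      have b2 : ((d : ℝ) + 2) * (N * (N * (2 * (N * 5 + Real.log 6)))) * Q =
          (d + 2) * (N * (N * 2)) * ((N * 5 + Real.log 6) * Q) := by ring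
      rw [b1, b2]
      exact mul_le_mul_of_nonneg_left a2 (by positivity)
    linarith only [a1, a3]
  have s10 : (N : ℝ) * e' ≤ N * 5 * Q := by
    have := mul_le_mul_of_nonneg_left he'5 hN0
    linarith only [this]
  have s11 : (N : ℝ) * (n * Real.log (2 * C₀ + 1) + 2 * (Cc * Q)) ≤
      N * (n * Real.log (2 * C₀ + 1) + 2 * Cc) * Q := by
    rw [mul_assoc (N : ℝ)]
    refine mul_le_mul_of_nonneg_left ?_ hN0
    have a1 : (n : ℝ) * Real.log (2 * C₀ + 1) ≤ n * Real.log (2 * C₀ + 1) * Q :=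
      le_mul_of_one_le_right (by positivity) hQ1
    linarith only [a1]
  have s12 : Real.log 2 ≤ 1 * Q := by linarith only [hlog2', hW0, he₁, he₃]
  have s13 : C₄ * Q = N * 5 * Q + N * (n * Real.log (2 * C₀ + 1) + 2 * Cc) * Q + 1 * Q +
      N * (Real.log (3 * C₃) + (d + 2) * (N * (N * (2 * (N * 5 + Real.log 6))))) * Q := by
    rw [hC₄]
    ring
  have s1' : CH q R G ≤ CH (cp q ℓ N) (fun w => R w.1) Z₀ + N * e' := s1
  have s2' : CH (cp q ℓ N) (fun w => R w.1) Z₀ ≤ CH (cp q ℓ N) vv Z₀ +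
      CH (cp q ℓ N) (fun w => R w.1) Z₁ := s2
  have s4' : CH (cp q ℓ N) (fun w => R w.1) Z₁ ≤ CH (cp q ℓ N) Jv Z₁ +
      CH (cp q ℓ N) (fun w => R w.1) (fun w => (Jv w, Z₁ w)) := s4
  change CH q R G ≤ C₄ * Q
  rw [s13]
  linarith only [hlog2', hW0, he₁, he₃, s1, s3, s2, s4, s5, s6, s8, s9, s10, s11]

end Pool.KBX
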